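import Pool.Agent.H499.CF.Stm

/-!
# Project CF (helper499), job NAK (helper396)
-/

set_option autoImplicit false

namespace Pool.Agent.H396.CF

open Matrix IsLocalRing Pool.Agent.H499.CF

/-- a matrix with entries in an ideal -/
theorem mat_mem {R : Type} [CommRing R] {n : ℕ} (I : Ideal R) (z : Matrix (Fin n) (Fin n) R)
    (hz : ∀ p q, z p q ∈ I) : z ∈ I • (⊤ : Submodule R (Matrix (Fin n) (Fin n) R)) := by
  rw [Matrix.matrix_eq_sum_single z]
  refine Submodule.sum_mem _ fun p _ => Submodule.sum_mem _ fun q _ => ?_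
  have h1 : Matrix.single p q (z p q) = z p q • Matrix.single p q (1 : R) := by
    rw [Matrix.smul_single, smul_eq_mul, mul_one]
  rw [h1]
  exact Submodule.smul_mem_smul (hz p q) trivial

/-- a family of matrices with entries in an ideal -/
theorem fam_mem {R J : Type} [CommRing R] [Fintype J] [DecidableEq J] {d : J → ℕ} (I : Ideal R)
    (z : ∀ i, Matrix (Fin (d i)) (Fin (d i)) R) (hz : ∀ i p q, z i p q ∈ I) :
    z ∈ I • (⊤ : Submodule R (∀ i, Matrix (Fin (d i)) (Fin (d i)) R)) := by
  rw [← Finset.univ_sum_single z]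
  refine Submodule.sum_mem _ fun i _ => ?_
  have h1 : LinearMap.single R (fun i => Matrix (Fin (d i)) (Fin (d i)) R) i (z i) ∈
      Submodule.map (LinearMap.single R (fun i => Matrix (Fin (d i)) (Fin (d i)) R) i)
        (I • (⊤ : Submodule R (Matrix (Fin (d i)) (Fin (d i)) R))) :=
    Submodule.mem_map_of_mem (mat_mem I (z i) (hz i))
  rw [Submodule.map_smul''] at h1
  exact Submodule.smul_mono le_rfl le_top h1

/-- reduction modulo the maximal ideal -/
def red {R k J : Type} [CommRing R] [Field k] (π : R →+* k) (d : J → ℕ) :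
    (∀ i, Matrix (Fin (d i)) (Fin (d i)) R) →ₛₗ[π] (∀ i, Matrix (Fin (d i)) (Fin (d i)) k) where
  toFun x i := (x i).map π
  map_add' x y := by
    funext i
    ext p q
    exact map_add π _ _
  map_smul' c x := by
    funext i
    ext p q
    exact map_mul π _ _

theorem nak : S_NAK := by
  intro R k G J _ _ _ π _ _ _ d ρ hπ hspan
  have : RingHomSurjective π := ⟨hπ⟩
  have hmap : Submodule.map (red π d) (Submodule.span R (Set.range fun (g : G) i => ρ i g)) = ⊤ := by
    rw [Submodule.map_span, ← Set.range_comp]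
    exact hspan
  have hmax : ∀ x : R, π x = 0 → x ∈ maximalIdeal R := by
    intro x hx
    rw [IsLocalRing.mem_maximalIdeal]
    intro hu
    exact (hu.map π).ne_zero hx
  refine top_le_iff.1 ?_
  refine Submodule.le_of_le_smul_of_le_jacobson_bot (Module.Finite.fg_top)
    (IsLocalRing.maximalIdeal_le_jacobson _) ?_
  intro x _
  have hx : red π d x ∈ Submodule.map (red π d)
      (Submodule.span R (Set.range fun (g : G) i => ρ i g)) := by
    rw [hmap]
    trivial
  obtain ⟨y, hy, hxy⟩ := Submodule.mem_map.1 hx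
  rw [Submodule.mem_sup]
  refine ⟨y, hy, x - y, fam_mem _ _ fun i p q => ?_, by abel⟩
  refine hmax _ ?_
  have h1 : π (y i p q) = π (x i p q) := congrFun (congrFun (congrFun hxy i) p) q
  change π (x i p q - y i p q) = 0
  rw [map_sub, h1, sub_self]

end Pool.Agent.H396.CF
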